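import Pool.Agent.Lib.MP_af2b3e_co.Step

set_option autoImplicit false

namespace Pool.Agent.Results.MP_af2b3e_co.ExpSqrt

theorem numeric (c : ℝ) (hc0 : 0 ≤ c) (hc : 3 * c ^ 2 < 1) :
    ∃ n₀ : ℕ, 1 ≤ n₀ ∧ ∀ n : ℕ, n₀ ≤ n →
      (Real.log (4 * (n * Real.exp (c * Real.sqrt n)) ^ 3) + 2) *
        Real.log (1 + Real.exp (c * Real.sqrt n) *
          Real.log (4 * (n * Real.exp (c * Real.sqrt n)) ^ 3)) ≤ n - 2 := by
  set δ := 1 - 3 * c ^ 2 with hδ
  have hδ0 : 0 < δ := by linarith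
  have hδ1 : δ ≤ 1 := by nlinarith
  set ε := δ / 12 with hε
  have hε0 : 0 < ε := by positivity
  have hc1 : c ≤ 3 / 5 := by nlinarith
  refine ⟨⌈(4 / ε) ^ 4⌉₊ + 1, by omega, fun n hn => ?_⟩
  have hnR : (4 / ε) ^ 4 ≤ (n : ℝ) := by
    have h1 := Nat.le_ceil ((4 / ε) ^ 4)
    have h2 : ((⌈(4 / ε) ^ 4⌉₊ : ℕ) : ℝ) ≤ n := by exact_mod_cast (by omega)
    linarith
  have hn0 : (0 : ℝ) < n := lt_of_lt_of_le (by positivity) hnR
  set t := Real.sqrt n with ht
  set u := Real.sqrt t with hu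
  have ht0 : 0 < t := Real.sqrt_pos.2 hn0
  have hu0 : 0 < u := Real.sqrt_pos.2 ht0
  have htt : t ^ 2 = n := Real.sq_sqrt hn0.le
  have huu : u ^ 2 = t := Real.sq_sqrt ht0.le
  have hu4 : u ^ 4 = n := by rw [← htt, ← huu]; ring
  have hub : 4 / ε ≤ u := by
    rw [← hu4] at hnR
    exact le_of_pow_le_pow_left₀ (by norm_num) hu0.le hnR
  have hεu : 4 ≤ ε * u := by rw [div_le_iff₀ hε0] at hub; linarith
  have hu48 : 48 ≤ u := by nlinarith
  have hεt : 4 * u ≤ ε * t := by rw [← huu]; nlinarith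
  have hlogn : Real.log n ≤ ε * t := by
    rw [← hu4, Real.log_pow]
    have := Real.log_le_sub_one_of_pos hu0
    push_cast
    linarith
  have hn1 : (1 : ℝ) ≤ n := by rw [← hu4]; exact one_le_pow₀ (by linarith)
  have hlogn0 : 0 ≤ Real.log n := Real.log_nonneg hn1
  have hlog4 : Real.log 4 ≤ 3 := by
    have := Real.log_le_sub_one_of_pos (x := 4) (by norm_num)
    linarith
  have hlog40 : 0 ≤ Real.log 4 := Real.log_nonneg (by norm_num)
  set L := Real.log (4 * (n * Real.exp (c * t)) ^ 3) with hL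
  have hLe : L = Real.log 4 + 3 * (Real.log n + c * t) := by
    rw [hL, Real.log_mul (by norm_num) (by positivity), Real.log_pow,
      Real.log_mul hn0.ne' (Real.exp_pos _).ne', Real.log_exp]
    push_cast; ring
  have hE : 1 ≤ Real.exp (c * t) := Real.one_le_exp (by positivity)
  have hδc : 12 * ε = 1 - 3 * c ^ 2 := by rw [hε]; linarith
  have hε1 : ε ≤ 1 / 12 := by rw [hε]; linarith
  clear_value L u t ε δ
  have hct : 0 ≤ c * t := by positivity
  have hL0 : 0 ≤ L := by rw [hLe]; positivity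
  have hL2 : L + 2 ≤ (3 * c + 4 * ε) * t := by rw [hLe]; linarith
  have ht48 : 48 ≤ t := by rw [← huu]; nlinarith
  have hL1 : 1 + L ≤ n := by
    have h1 : (3 * c + 4 * ε) * t ≤ 48 * t := mul_le_mul_of_nonneg_right (by linarith) ht0.le
    have h2 : 48 * t ≤ t * t := mul_le_mul_of_nonneg_right ht48 ht0.le
    rw [← htt]; linarith [sq t]
  have hlog2 : Real.log (1 + Real.exp (c * t) * L) ≤ (c + ε) * t := by
    have h1 : 1 + Real.exp (c * t) * L ≤ Real.exp (c * t) * n := by nlinarith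
    have h2 := Real.log_le_log (by positivity) h1
    rw [Real.log_mul (Real.exp_pos _).ne' hn0.ne', Real.log_exp] at h2
    linarith
  have hlog20 : 0 ≤ Real.log (1 + Real.exp (c * t) * L) :=
    Real.log_nonneg (by nlinarith)
  have h3 : (L + 2) * Real.log (1 + Real.exp (c * t) * L)
      ≤ ((3 * c + 4 * ε) * t) * ((c + ε) * t) :=
    mul_le_mul hL2 hlog2 hlog20 (by positivity)
  have h4 : (3 * c + 4 * ε) * (c + ε) ≤ 1 - 6 * ε := by
    have h1 : ε * c ≤ ε * (3 / 5) := mul_le_mul_of_nonneg_left hc1 hε0.le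
    have h2 : ε * ε ≤ ε * (1 / 12) := mul_le_mul_of_nonneg_left hε1 hε0.le
    linarith [sq c]
  have h5 : ((3 * c + 4 * ε) * t) * ((c + ε) * t) ≤ (1 - 6 * ε) * t ^ 2 := by
    have : ((3 * c + 4 * ε) * t) * ((c + ε) * t) = (3 * c + 4 * ε) * (c + ε) * t ^ 2 := by ring
    rw [this]
    exact mul_le_mul_of_nonneg_right h4 (by positivity)
  have h6 : 2 ≤ 6 * ε * t ^ 2 := by
    have h1 : 1 * 48 ≤ (ε * t) * t :=
      mul_le_mul (by linarith) ht48 (by norm_num) (by positivity)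
    linarith [sq t, mul_assoc ε t t, show 6 * ε * t ^ 2 = 6 * (ε * t * t) by ring]
  rw [← htt]
  linarith

/-- For every `c < 1/√3` and all large `n`, the second player has a Strong Draw on every finite
`n`-uniform hypergraph of maximum degree at most `exp (c √n)`. -/
theorem result :
    ∀ c : ℝ, c < 1 / Real.sqrt 3 → ∃ n₀ : ℕ, ∀ n : ℕ, n₀ ≤ n →
      ∀ (V : Type) [Fintype V] [DecidableEq V] (H : Finset (Finset V)),
        (∀ e ∈ H, e.card = n) →
        (∀ v : V, ((H.filter (fun e => v ∈ e)).card : ℝ) ≤ Real.exp (c * Real.sqrt n)) →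
        ∃ W : Set (Finset V × Finset V), ((∅ : Finset V), (∅ : Finset V)) ∈ W ∧
          ∀ M B : Finset V, (M, B) ∈ W → ∀ x : V, x ∉ M → x ∉ B →
            (∀ e ∈ H, ¬ e ⊆ insert x M) ∧
            (insert x M ∪ B = Finset.univ ∨
              ∃ y : V, y ∉ insert x M ∧ y ∉ B ∧ (insert x M, insert y B) ∈ W) := by
  intro c hc
  have hs : 0 < Real.sqrt 3 := Real.sqrt_pos.2 (by norm_num)
  have hc' : max c 0 < 1 / Real.sqrt 3 := max_lt hc (by positivity)
  have h3 : 3 * (max c 0) ^ 2 < 1 := by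
    rw [lt_div_iff₀ hs] at hc'
    have h1 : Real.sqrt 3 ^ 2 = 3 := Real.sq_sqrt (by norm_num)
    have h2 : 0 ≤ max c 0 * Real.sqrt 3 := mul_nonneg (le_max_right _ _) hs.le
    nlinarith
  obtain ⟨n₀, hn₀, hnum⟩ := numeric (max c 0) (le_max_right _ _) h3
  refine ⟨n₀, fun n hn V _ _ H hH hD => ?_⟩
  refine Pool.Agent.Lib.MP_af2b3e_co.breaker_wins H n (hn₀.trans hn) hH
    (Real.exp (max c 0 * Real.sqrt n))
    (Real.one_le_exp (mul_nonneg (le_max_right _ _) (Real.sqrt_nonneg _))) (fun v => ?_)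
    (hnum n hn)
  exact (hD v).trans (Real.exp_le_exp.2
    (mul_le_mul_of_nonneg_right (le_max_left _ _) (Real.sqrt_nonneg _)))

end Pool.Agent.Results.MP_af2b3e_co.ExpSqrt
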