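import Pool.Agent.Lib.MP_af2b3e_co.LE.Main

set_option autoImplicit false

namespace Pool.Agent.Results.MP_af2b3e_co.LocalES

/-- A local Erdős–Selfridge theorem: if from every edge of the `n`-uniform hypergraph `H` at most
`M` edges can be reached by a chain of `r` steps through edges that meet, `2M + 1 ≤ (2 - η)^n` and
`41 log(8 n M^2)^2 ≤ η^2 r`, then the second player has a Strong Draw. -/
theorem result :
    ∀ (n M r : ℕ) (η : ℝ), 1 ≤ n → 1 ≤ M → 0 < η → η ≤ 1 →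
      2 * (M : ℝ) + 1 ≤ (2 - η) ^ n →
      41 * Real.log (8 * (n : ℝ) * (M : ℝ) ^ 2) ^ 2 ≤ η ^ 2 * (r : ℝ) →
      ∀ (V : Type) [Fintype V] [DecidableEq V] (H : Finset (Finset V)),
        (∀ e ∈ H, e.card = n) →
        (∀ e ∈ H, {f : Finset V | ∃ c : ℕ → Finset V, c 0 = e ∧ c r = f ∧
          ∀ i < r, c (i + 1) ∈ H ∧ (c i ∩ c (i + 1)).Nonempty}.ncard ≤ M) →
        ∃ W : Set (Finset V × Finset V), ((∅ : Finset V), (∅ : Finset V)) ∈ W ∧
          ∀ A B : Finset V, (A, B) ∈ W → ∀ x : V, x ∉ A → x ∉ B →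
            (∀ e ∈ H, ¬ e ⊆ insert x A) ∧
            (insert x A ∪ B = Finset.univ ∨
              ∃ y : V, y ∉ insert x A ∧ y ∉ B ∧ (insert x A, insert y B) ∈ W) := by
  intro n M r η hn hM h0 h1 h2 h3 V _ _ H hH hb
  refine Pool.Agent.Lib.MP_af2b3e_co.LE.main H n r M η hn (by exact_mod_cast hM) h0 h1 h2 h3 hH
    fun e he => ?_
  refine Nat.cast_le.2 (le_trans ?_ (hb e he))
  rw [← Set.ncard_coe_finset]
  exact Set.ncard_le_ncard
    (fun f hf => (Pool.Agent.Lib.MP_af2b3e_co.LE.mem_nb.1 (Finset.mem_coe.1 hf)).2.chain)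
    (Set.toFinite _)

end Pool.Agent.Results.MP_af2b3e_co.LocalES
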