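import Pool.Agent.Lib.MP_af2b3e_co.BSKLinear

set_option autoImplicit false

namespace Pool.Agent.Results.MP_af2b3e_co.SmallMeets

/-- If `H` is `n`-uniform, two distinct edges share at most `k` points, any `j + 1` points lie in
at most `c` edges, the maximum degree is at most `D` and
`D c^(84 j^2) (n (⌊log₂ |H|⌋ + 1))^(400 j^3 + 240 k) ≤ 2^n`, then the second player has a Strong
Draw. -/
theorem result :
    ∀ (n D k j c : ℕ), 2 ≤ n → 1 ≤ j → 1 ≤ c →
      ∀ (V : Type) [Fintype V] [DecidableEq V] (H : Finset (Finset V)),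
        (∀ e ∈ H, e.card = n) →
        (∀ e ∈ H, ∀ f ∈ H, e ≠ f → (e ∩ f).card ≤ k) →
        (∀ q : Finset V, q.card = j + 1 → (H.filter (fun e => q ⊆ e)).card ≤ c) →
        (∀ v : V, (H.filter (fun e => v ∈ e)).card ≤ D) →
        D * c ^ (84 * j ^ 2) * (n * (Nat.log 2 H.card + 1)) ^ (400 * j ^ 3 + 240 * k) ≤ 2 ^ n →
        ∃ W : Set (Finset V × Finset V), ((∅ : Finset V), (∅ : Finset V)) ∈ W ∧
          ∀ M B : Finset V, (M, B) ∈ W → ∀ x : V, x ∉ M → x ∉ B →
            (∀ e ∈ H, ¬ e ⊆ insert x M) ∧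
            (insert x M ∪ B = Finset.univ ∨
              ∃ y : V, y ∉ insert x M ∧ y ∉ B ∧ (insert x M, insert y B) ∈ W) :=
  fun _ _ _ _ _ hn2 hj hc _ _ _ _ hn hlin hco hD hnum =>
    (Pool.Agent.Lib.MP_af2b3e_co.BSK.linear_log hn2 hj hc hn hlin hco hD hnum).wins

end Pool.Agent.Results.MP_af2b3e_co.SmallMeets
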