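import Pool.Agent.Lib.MP_af2b3e_co.BSTower

set_option autoImplicit false

namespace Pool.Agent.Results.MP_af2b3e_co.Tower

/-- If every edge of an `n`-uniform hypergraph `H` meets at most `Δ` edges (itself included) and
`(32 Δ^5 L)^(6^k) ≤ 2^n`, where `L` is the `(k+1)`-fold iterate of `x ↦ ⌊log₂ x⌋ + 1` at `|H|`,
then the second player has a Strong Draw. -/
theorem result :
    ∀ (n Δ k : ℕ), 1 ≤ n →
      ∀ (V : Type) [Fintype V] [DecidableEq V] (H : Finset (Finset V)),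
        (∀ e ∈ H, e.card = n) →
        (∀ e ∈ H, (H.filter (fun f => ¬ Disjoint f e)).card ≤ Δ) →
        (32 * Δ ^ 5 * (fun x => Nat.log 2 x + 1)^[k + 1] H.card) ^ (6 ^ k) ≤ 2 ^ n →
        ∃ W : Set (Finset V × Finset V), ((∅ : Finset V), (∅ : Finset V)) ∈ W ∧
          ∀ M B : Finset V, (M, B) ∈ W → ∀ x : V, x ∉ M → x ∉ B →
            (∀ e ∈ H, ¬ e ⊆ insert x M) ∧
            (insert x M ∪ B = Finset.univ ∨
              ∃ y : V, y ∉ insert x M ∧ y ∉ B ∧ (insert x M, insert y B) ∈ W) :=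
  fun _ _ _ hn1 _ _ _ _ hn hΔ hnum =>
    (Pool.Agent.Lib.MP_af2b3e_co.BS.tower hn1 hn hΔ hnum).wins

end Pool.Agent.Results.MP_af2b3e_co.Tower
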